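import Pool.Agent.X55.FSq.Main

/-! MP_22f37c_nt, Q2: squares of primes below the Frobenius number `a₁ a₂ - a₁ - a₂`. -/

set_option autoImplicit false

namespace Pool.Agent.Results.MP_22f37c_nt.FixedSmallerGenerator

/-- `π₂` of the pair `(a, b)`: the number of primes `p` with `p² ≤ a b - a - b` such that
`p² = a x + b y` for some natural numbers `x, y` -/
noncomputable def pi2 (a b : ℕ) : ℕ := by
  classical exact ((Finset.range (a * b + 1)).filter fun p : ℕ =>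
    p.Prime ∧ p ^ 2 + a + b ≤ a * b ∧ ∃ x y : ℕ, p ^ 2 = a * x + b * y).card

/-- the pairs of the set `ℰ`: `(6, 6m+5)`, `(8, 8m+7)`, `(12, 12m+11)`, `(24, 24m+23)` -/
def Exceptional (a b : ℕ) : Prop :=
  ∃ m : ℕ, (a = 6 ∧ b = 6 * m + 5) ∨ (a = 8 ∧ b = 8 * m + 7) ∨ (a = 12 ∧ b = 12 * m + 11) ∨
    (a = 24 ∧ b = 24 * m + 23)

/-- the pairs which the second question asks to be finite in number -/
def Bad : Set (ℕ × ℕ) :=
  {ab | 1 < ab.1 ∧ ab.1 < ab.2 ∧ Nat.Coprime ab.1 ab.2 ∧ ¬ Exceptional ab.1 ab.2 ∧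
    pi2 ab.1 ab.2 = 0}

theorem pi2_ne {a b p : ℕ} (hp : p.Prime) (h1 : p ^ 2 + a + b ≤ a * b)
    (h2 : ∃ x y : ℕ, p ^ 2 = a * x + b * y) : pi2 a b ≠ 0 := by
  classical
  unfold pi2
  have hpp : p ≤ p ^ 2 := Nat.le_self_pow (by norm_num) p
  exact Finset.card_ne_zero_of_mem (a := p)
    (Finset.mem_filter.mpr ⟨Finset.mem_range.mpr (by omega), hp, h1, h2⟩)

/-- For every fixed `a₁ ≥ 2` only finitely many `a₂` are bad. Hence, as `π₂ > 0` for all large `a₁`
(Huang and Zhu, listed as known), only finitely many pairs are bad. -/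
theorem result :
    (∀ a : ℕ, {b : ℕ | (a, b) ∈ Bad}.Finite) ∧
    ((∃ A : ℕ, ∀ a b : ℕ, A ≤ a → a < b → Nat.Coprime a b → 0 < pi2 a b) → Bad.Finite) := by
  have h1 : ∀ a : ℕ, {b : ℕ | (a, b) ∈ Bad}.Finite := by
    intro a
    by_cases ha : 3 ≤ a
    · obtain ⟨B, hB⟩ := Pool.Agent.X55.FSq.fixed ha
      apply (Set.finite_lt_nat B).subset
      rintro b ⟨_, _, h3, h4, h5⟩
      simp only at h3 h4 h5
      by_contra hb
      simp only [Set.mem_ofPred_eq, not_lt] at hb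
      rcases hB b hb h3 with ⟨p, hp, hp1, hp2⟩ | h
      · exact pi2_ne hp hp1 hp2 h5
      · apply h4
        rcases h with h | h | h | h
        · exact ⟨b / 6, Or.inl ⟨h.1, by omega⟩⟩
        · exact ⟨b / 8, Or.inr (Or.inl ⟨h.1, by omega⟩)⟩
        · exact ⟨b / 12, Or.inr (Or.inr (Or.inl ⟨h.1, by omega⟩))⟩
        · exact ⟨b / 24, Or.inr (Or.inr (Or.inr ⟨h.1, by omega⟩))⟩
    · apply (Set.finite_lt_nat 7).subset
      rintro b ⟨h1, h2, h3, _, h5⟩
      simp only at h1 h2 h3 h5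
      have ha2 : a = 2 := by omega
      subst ha2
      by_contra hb
      simp only [Set.mem_ofPred_eq, not_lt] at hb
      exact pi2_ne (p := 2) (by norm_num) (by omega) ⟨2, 0, by norm_num⟩ h5
  refine ⟨h1, ?_⟩
  rintro ⟨A, hA⟩
  have h2 : Bad ⊆ ⋃ a ∈ Set.Iio A, (fun b => (a, b)) '' {b : ℕ | (a, b) ∈ Bad} := by
    rintro ⟨a, b⟩ hab
    have h3 : a < A := by
      by_contra h
      have := hA a b (not_lt.mp h) hab.2.1 hab.2.2.1
      have h4 : pi2 a b = 0 := hab.2.2.2.2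
      omega
    simp only [Set.mem_iUnion]
    exact ⟨a, h3, b, hab, rfl⟩
  exact ((Set.finite_Iio A).biUnion fun a _ => (h1 a).image _).subset h2

end Pool.Agent.Results.MP_22f37c_nt.FixedSmallerGenerator
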